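import Pool.Agent.Helper76.CV.Goals

/-!
# Project CV, packet SC1
-/

namespace Pool.Agent.Helper88.CV.SC1

open Pool.Agent.Helper76.CV

theorem key {ρ N u R κ : ℝ} (hκ : 0 < κ) (hu : u ^ 2 ≤ 1) (hN : N ^ 2 ≤ κ * (ρ + N ^ 2)) :
    (ρ + (N + u * R) ^ 2) * (1 - u ^ 2) ≤ ρ + N ^ 2 + (κ + 1 / 4) * R ^ 2 := by
  have ht0 : 0 ≤ 1 - u ^ 2 := by linarith
  have ht1 : (1 - u ^ 2) ^ 2 ≤ 1 := by nlinarith [sq_nonneg u]
  have h1 : N ^ 2 * (1 - u ^ 2) ^ 2 ≤ κ * (ρ + N ^ 2) := by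
    calc N ^ 2 * (1 - u ^ 2) ^ 2 ≤ N ^ 2 * 1 := mul_le_mul_of_nonneg_left ht1 (sq_nonneg _)
      _ ≤ κ * (ρ + N ^ 2) := by linarith
  have h2 : 0 ≤ κ * (κ * R ^ 2 - 2 * N * R * u * (1 - u ^ 2) + u ^ 2 * (ρ + N ^ 2)) := by
    have h3 : κ * (κ * R ^ 2 - 2 * N * R * u * (1 - u ^ 2) + u ^ 2 * (ρ + N ^ 2)) =
        (κ * R - N * u * (1 - u ^ 2)) ^ 2 +
          u ^ 2 * (κ * (ρ + N ^ 2) - N ^ 2 * (1 - u ^ 2) ^ 2) := by ring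
    rw [h3]
    exact add_nonneg (sq_nonneg _) (mul_nonneg (sq_nonneg _) (by linarith))
  have h4 : 0 ≤ κ * R ^ 2 - 2 * N * R * u * (1 - u ^ 2) + u ^ 2 * (ρ + N ^ 2) :=
    nonneg_of_mul_nonneg_right h2 hκ
  have h5 : u ^ 2 * (1 - u ^ 2) ≤ 1 / 4 := by nlinarith [sq_nonneg (u ^ 2 - 1 / 2)]
  have h6 : R ^ 2 * (u ^ 2 * (1 - u ^ 2)) ≤ R ^ 2 * (1 / 4) :=
    mul_le_mul_of_nonneg_left h5 (sq_nonneg _)
  have h7 : (ρ + (N + u * R) ^ 2) * (1 - u ^ 2) =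
      (ρ + N ^ 2) + 2 * N * R * u * (1 - u ^ 2) - u ^ 2 * (ρ + N ^ 2) +
        R ^ 2 * (u ^ 2 * (1 - u ^ 2)) := by ring
  rw [h7]
  linarith

theorem l1 {u : ℝ} (h : u ^ 2 ≤ 1) : u ≤ 1 := by
  by_contra hc
  push Not at hc
  nlinarith

theorem l2 {N : ℝ} (h : N ^ 2 ≤ 314 / 1000) : N ≤ 5604 / 10000 := by
  by_contra hc
  push Not at hc
  nlinarith

theorem l3 {R : ℝ} (h0 : 0 < R) (h : 7 / 10 ≤ R ^ 2) : 83 / 100 ≤ R := by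
  by_contra hc
  push Not at hc
  nlinarith

theorem l4 {R : ℝ} (h0 : 0 < R) (h : 28 / 100 ≤ R ^ 2) : 52 / 100 ≤ R := by
  by_contra hc
  push Not at hc
  nlinarith

theorem l5 {N ρ κ m : ℝ} (hκ1 : κ ≤ 1) (hκ : 0 < κ) (hm : N ^ 2 ≤ m)
    (hmκ : m * (1 - κ) ≤ κ * (999 / 1000)) (ρ1 : 999 / 1000 ≤ ρ) :
    N ^ 2 ≤ κ * (ρ + N ^ 2) := by
  have h1 : N ^ 2 * (1 - κ) ≤ m * (1 - κ) := mul_le_mul_of_nonneg_right hm (by linarith)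
  have h2 : κ * (999 / 1000) ≤ κ * ρ := mul_le_mul_of_nonneg_left ρ1 hκ.le
  linarith

theorem l6 {σ R : ℝ} (σ0 : 0 ≤ σ) (hσ1 : σ ≤ 101 / 100 * (57 / 100 + R)) (hR : 11 / 2 ≤ R) :
    1 + σ ^ 2 ≤ 130 / 100 * R ^ 2 := by
  have : σ ^ 2 ≤ (101 / 100 * (57 / 100 + R)) ^ 2 := pow_le_pow_left₀ σ0 hσ1 2
  nlinarith

theorem q1 {f1 R : ℝ} (h : f1 ≤ 11 / 2) (h1 : 3 / 4 ≤ R) (h2 : R ≤ 11 / 2) :
    f1 + 131 / 10 * (1001 / 1000 + 314 / 1000 + (2392 / 10000 + 1 / 4) * R ^ 2) +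
      (101 / 100 * (57 / 100 + R)) / 1000 ≤ 85 / 2 * R := by
  nlinarith [mul_nonneg (sub_nonneg.2 h1) (sub_nonneg.2 h2)]

theorem q2 {f1 R : ℝ} (h : f1 ≤ 57 / 5) (h1 : 83 / 100 ≤ R) (h2 : R ≤ 11 / 2) :
    f1 + 131 / 10 * (1001 / 1000 + 314 / 1000 + (2392 / 10000 + 1 / 4) * R ^ 2) +
      (101 / 100 * (57 / 100 + R)) / 1000 ≤ 85 / 2 * R := by
  nlinarith [mul_nonneg (sub_nonneg.2 h1) (sub_nonneg.2 h2)]

theorem q3 {f1 R : ℝ} (h : f1 ≤ 7 / 5) (h1 : 52 / 100 ≤ R) (h2 : R ≤ 11 / 2) :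
    f1 + 131 / 10 * (1001 / 1000 + 1 / 10 + (91 / 1000 + 1 / 4) * R ^ 2) +
      (101 / 100 * (57 / 100 + R)) / 1000 ≤ 85 / 2 * R := by
  nlinarith [mul_nonneg (sub_nonneg.2 h1) (sub_nonneg.2 h2)]

theorem t : Pool.Agent.Helper76.CV.SC1 := by
  intro w c2 v σ f1 A M ρ R h
  obtain ⟨w0, v1, v2, σ0, σv, ρ1, ρ2, A6, cs, R0, R2, f0, f2, M1, cas, neg⟩ := h
  have hρ : 0 < ρ := by linarith
  obtain ⟨s, hs0, hs⟩ : ∃ s : ℝ, 0 < s ∧ s ^ 2 = ρ :=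
    ⟨√ρ, Real.sqrt_pos.2 hρ, Real.sq_sqrt hρ.le⟩
  have hs1' : 9994 / 10000 ≤ s := by
    apply le_of_sq_le_sq _ hs0.le
    rw [hs]
    linarith
  obtain ⟨N, hN⟩ : ∃ N : ℝ, M = N * s := ⟨M / s, by field_simp⟩
  obtain ⟨u, hu⟩ : ∃ u : ℝ, σ * ρ - M = u * (s * R) :=
    ⟨(σ * ρ - M) / (s * R), by field_simp⟩
  -- identities
  have hid : ρ * A - M ^ 2 = ρ * R ^ 2 - (σ * ρ - M) ^ 2 := by
    rw [R2]; ring
  have hP : 0 ≤ ρ * A - M ^ 2 := by linarith [mul_comm A ρ]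
  have hP2 : ρ * A - M ^ 2 = ρ * R ^ 2 * (1 - u ^ 2) := by
    rw [hid, hu, mul_pow, mul_pow, hs]; ring
  have hRR : 0 < ρ * R ^ 2 := by positivity
  have hu1 : u ^ 2 ≤ 1 := by
    rw [hP2] at hP
    have := nonneg_of_mul_nonneg_right hP hRR
    linarith
  have hσs : σ * s = N + u * R := by
    have h1 : s * (σ * s) = s * (N + u * R) := by
      calc s * (σ * s) = σ * s ^ 2 := by ring
        _ = M + u * (s * R) := by rw [hs]; linarith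
        _ = s * (N + u * R) := by rw [hN]; ring
    exact mul_left_cancel₀ hs0.ne' h1
  have hT : (1 + σ ^ 2) * (ρ * A - M ^ 2) = R ^ 2 * ((ρ + (N + u * R) ^ 2) * (1 - u ^ 2)) := by
    rw [hP2, ← hσs, mul_pow, hs]; ring
  have hN2 : M ^ 2 = N ^ 2 * ρ := by rw [hN, mul_pow, hs]
  have hNm : N ^ 2 ≤ 314 / 1000 := by
    rw [hN2] at M1
    exact le_of_mul_le_mul_right M1 hρ
  have hu2 : u ≤ 1 := l1 hu1
  have hNa : N ≤ 5604 / 10000 := l2 hNm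
  have hσ1 : σ ≤ 101 / 100 * (57 / 100 + R) := by
    have h1 : σ * s ≤ 5604 / 10000 + R := by
      rw [hσs]
      have : u * R ≤ 1 * R := mul_le_mul_of_nonneg_right hu2 R0.le
      linarith
    have h2 : σ * (9994 / 10000) ≤ σ * s := mul_le_mul_of_nonneg_left hs1' σ0
    linarith
  rcases le_total R (11 / 2) with hR | hR
  · -- R ≤ 11/2
    have hfin : ∀ m κ : ℝ, 0 < κ → N ^ 2 ≤ m → m * (1 - κ) ≤ κ * (999 / 1000) → κ ≤ 1 →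
        f1 + 131 / 10 * (1001 / 1000 + m + (κ + 1 / 4) * R ^ 2) +
          (101 / 100 * (57 / 100 + R)) / 1000 ≤ 85 / 2 * R →
        f1 * R ^ 2 + 131 / 10 * (1 + σ ^ 2) * (ρ * A - M ^ 2) + σ / 1000 * R ^ 2 ≤
          85 / 2 * R ^ 3 := by
      intro m κ hκ hm hmκ hκ1 hineq
      have h1 : N ^ 2 ≤ κ * (ρ + N ^ 2) := l5 hκ1 hκ hm hmκ ρ1
      have h2 := key (R := R) hκ hu1 h1
      have h3 : (1 + σ ^ 2) * (ρ * A - M ^ 2) ≤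
          R ^ 2 * (1001 / 1000 + m + (κ + 1 / 4) * R ^ 2) := by
        rw [hT]
        apply mul_le_mul_of_nonneg_left _ (sq_nonneg _)
        linarith
      have h4 : R ^ 2 * (f1 + 131 / 10 * (1001 / 1000 + m + (κ + 1 / 4) * R ^ 2) + σ / 1000) ≤
          R ^ 2 * (85 / 2 * R) := by
        apply mul_le_mul_of_nonneg_left _ (sq_nonneg _)
        linarith
      calc f1 * R ^ 2 + 131 / 10 * (1 + σ ^ 2) * (ρ * A - M ^ 2) + σ / 1000 * R ^ 2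
          = f1 * R ^ 2 + 131 / 10 * ((1 + σ ^ 2) * (ρ * A - M ^ 2)) + σ / 1000 * R ^ 2 := by ring
        _ ≤ f1 * R ^ 2 + 131 / 10 * (R ^ 2 * (1001 / 1000 + m + (κ + 1 / 4) * R ^ 2)) +
            σ / 1000 * R ^ 2 := by linarith
        _ = R ^ 2 * (f1 + 131 / 10 * (1001 / 1000 + m + (κ + 1 / 4) * R ^ 2) + σ / 1000) := by
            ring
        _ ≤ R ^ 2 * (85 / 2 * R) := h4
        _ = 85 / 2 * R ^ 3 := by ring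
    rcases cas with ⟨c1, c3⟩ | ⟨c1, c3⟩ | ⟨c1, c3, c4⟩
    · exact hfin (314 / 1000) (2392 / 10000) (by norm_num) hNm (by norm_num) (by norm_num)
        (q1 c1 c3 hR)
    · exact hfin (314 / 1000) (2392 / 10000) (by norm_num) hNm (by norm_num) (by norm_num)
        (q2 c1 (l3 R0 c3) hR)
    · have hNm' : N ^ 2 ≤ 1 / 10 := by
        rw [hN2] at c4
        exact le_of_mul_le_mul_right c4 hρ
      exact hfin (1 / 10) (91 / 1000) (by norm_num) hNm' (by norm_num) (by norm_num)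
        (q3 c1 (l4 R0 c3) hR)
  · -- R ≥ 11/2
    have hf1 : f1 ≤ 57 / 5 := by
      rcases cas with ⟨c1, -⟩ | ⟨c1, -⟩ | ⟨c1, -⟩ <;> linarith
    have h1 : ρ * A - M ^ 2 ≤ 6006 / 1000 := by
      have : ρ * A ≤ ρ * 6 := mul_le_mul_of_nonneg_left A6 hρ.le
      linarith [sq_nonneg M]
    have h2 : 1 + σ ^ 2 ≤ 130 / 100 * R ^ 2 := l6 σ0 hσ1 hR
    have h3 : (1 + σ ^ 2) * (ρ * A - M ^ 2) ≤ 130 / 100 * R ^ 2 * (6006 / 1000) :=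
      mul_le_mul h2 h1 hP (by positivity)
    have h4 : R ^ 2 * (57 / 5 + 131 / 10 * (130 / 100 * (6006 / 1000)) + σ / 1000) ≤
        R ^ 2 * (85 / 2 * R) := by
      apply mul_le_mul_of_nonneg_left _ (sq_nonneg _)
      linarith
    have h5 : f1 * R ^ 2 ≤ 57 / 5 * R ^ 2 := mul_le_mul_of_nonneg_right hf1 (sq_nonneg _)
    calc f1 * R ^ 2 + 131 / 10 * (1 + σ ^ 2) * (ρ * A - M ^ 2) + σ / 1000 * R ^ 2
        = f1 * R ^ 2 + 131 / 10 * ((1 + σ ^ 2) * (ρ * A - M ^ 2)) + σ / 1000 * R ^ 2 := by ring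
      _ ≤ 57 / 5 * R ^ 2 + 131 / 10 * (130 / 100 * R ^ 2 * (6006 / 1000)) +
          σ / 1000 * R ^ 2 := by linarith
      _ = R ^ 2 * (57 / 5 + 131 / 10 * (130 / 100 * (6006 / 1000)) + σ / 1000) := by ring
      _ ≤ R ^ 2 * (85 / 2 * R) := h4
      _ = 85 / 2 * R ^ 3 := by ring

end Pool.Agent.Helper88.CV.SC1
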